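import Pool.Agent.X30.Quad6

set_option autoImplicit false

/-!
# Primes `m ^ d + k`, `m ≤ (log k)^B`: no law is common to two scales

Let `P_k(n)` be the number of `m` in `{0, ..., n}` with `m ^ d + k` prime and `L_k(n) = ∫_0^n dx / log (x ^ d + k)`. The
prediction of Hardy and Littlewood is `P_k(n) / L_k(n) → C_k` as `n → ∞`, for a constant `C_k`. The question treated here
is how small `n` may be in terms of `k`, and it is treated without the constant: for different exponents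
`B_1, ..., B_r > 1` and real `c_i` with sum zero the combination `∑ c_i P_k(n_i) / L_k(n_i)`, `n_i = (log k)^(B_i)`,
would tend to `0` as `k → ∞` if the prediction held uniformly at these `n_i` with ANY constants `C_k`. But it is at
least a constant `δ > 0` for at least `X exp (-(log X)^ε)` of the `k ≤ X` (and, with `-c`, at most `-δ` for as many). For
`d = 3` these `k` are not cubes.

For `F = m ^ 3` the starting result `WindowsNearCubeRoot` has the asymptotic formula in all windows of length at least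
`(log X)^B` for all but `X / (log X)^U` of the `k`; so here is a lower bound for the size of its exceptional set,
`X exp (-(log X)^ε)`, for windows beginning at `m = 0`.

Method: a Maier matrix with rows `k ≡ 0 (mod W)`, `W` the product of the primes `p` in `((log X)^a, (log X)^b]`, `b` close
to `a`, and columns `m ^ d`: the number `m ^ d + k` is prime to `W` if and only if `m` is; then truncated
inclusion-exclusion, whose error has a sign depending on the scale.
-/

namespace Pool.Agent.Results.MP_4d57ea_nt.ContrastsBetweenScales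

/-- The number of `m ∈ {0, ..., n}` for which `m ^ d + k` is prime. -/
def P (d k n : ℕ) : ℕ := ((Finset.range (n + 1)).filter (fun m => (m ^ d + k).Prime)).card

/-- The comparison integral from `0` to `y`. -/
noncomputable def L (d k : ℕ) (y : ℝ) : ℝ := ∫ x in (0 : ℝ)..y, 1 / Real.log (x ^ d + k)

/-- The quotient `P_k(n) / L_k(n)` at `n = (log k)^B`. -/
noncomputable def Q (d k : ℕ) (B : ℝ) : ℝ := (P d k ⌊(Real.log k) ^ B⌋₊ : ℝ) / L d k ((Real.log k) ^ B)

open Classical in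
theorem result (r : ℕ) (B c : Fin r → ℝ) (hB : ∀ i, 1 < B i) (hinj : Function.Injective B) (hc : c ≠ 0)
    (hsum : ∑ i, c i = 0) (ε : ℝ) (hε : 0 < ε) :
    (∃ δ : ℝ, 0 < δ ∧ ∃ X₀ : ℝ, ∀ X : ℝ, X₀ ≤ X →
      X * Real.exp (-(Real.log X) ^ ε) ≤
        (((Finset.Icc 3 ⌊X⌋₊).filter
          (fun k : ℕ => (∀ a : ℕ, k ≠ a ^ 3) ∧ δ ≤ ∑ i, c i * Q 3 k (B i))).card : ℝ)) ∧
    ∀ d : ℕ, 1 ≤ d → ∃ δ : ℝ, 0 < δ ∧ ∃ X₀ : ℝ, ∀ X : ℝ, X₀ ≤ X →
      X * Real.exp (-(Real.log X) ^ ε) ≤
        (((Finset.Icc 3 ⌊X⌋₊).filter (fun k : ℕ => δ ≤ ∑ i, c i * Q d k (B i))).card : ℝ) := by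
  have hc' : ∃ i ∈ (Finset.univ : Finset (Fin r)), c i ≠ 0 := by
    by_contra h
    push Not at h
    exact hc (funext fun i => h i (Finset.mem_univ i))
  have key : ∀ d : ℕ, 1 ≤ d → ∃ δ : ℝ, 0 < δ ∧ ∃ X₀ : ℝ, ∀ X : ℝ, X₀ ≤ X →
      X * Real.exp (-(Real.log X) ^ ε) ≤
        (((Finset.Icc 3 ⌊X⌋₊).filter (fun k : ℕ => δ ≤ ∑ i, c i * Q d k (B i))).card : ℝ) := by
    intro d hd
    obtain ⟨δ, hδ, X₀, h⟩ := Pool.Agent.X30.QW.conjPow d hd Finset.univ B c (fun i _ => hB i)
      (fun i _ j _ hij h => hij (hinj h)) hc' hsum ε hε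
    refine ⟨δ, hδ, X₀, fun X hX => (h X hX).trans ?_⟩
    norm_cast
    apply Finset.card_le_card
    intro A hA
    rw [Finset.mem_filter, Finset.mem_Icc] at hA ⊢
    exact ⟨⟨hA.2.1, hA.1.2⟩, hA.2.2⟩
  refine ⟨?_, key⟩
  obtain ⟨δ, hδ, X₀, h⟩ := key 3 (by norm_num)
  refine ⟨δ, hδ, X₀, fun X hX => (h X hX).trans ?_⟩
  norm_cast
  apply Finset.card_le_card
  intro k hk
  rw [Finset.mem_filter, Finset.mem_Icc] at hk ⊢
  refine ⟨hk.1, ?_, hk.2⟩
  intro a ha
  have ha2 : 2 ≤ a := by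
    by_contra h
    have h1 : a ≤ 1 := by omega
    have h2 : k ≤ 1 := by
      rw [ha]
      exact Nat.pow_le_one_iff (by norm_num) |>.2 h1
    omega
  have hP : ∀ n : ℕ, P 3 k n = 0 := by
    intro n
    unfold P
    rw [Finset.card_eq_zero, Finset.filter_eq_empty_iff]
    intro m _ hp
    rw [ha] at hp
    -- `m ^ 3 + a ^ 3 = (m + a) (m ^ 2 + a ^ 2 - m a)`
    have h1 : m * a ≤ m ^ 2 + a ^ 2 := by nlinarith [sq_nonneg ((m : ℤ) - a), Nat.zero_le (m * a)]
    obtain ⟨w, hw⟩ := Nat.exists_eq_add_of_le h1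
    have h2 : m ^ 3 + a ^ 3 = (m + a) * w := by
      have h3 : ((m ^ 3 + a ^ 3 : ℕ) : ℤ) = (((m + a) * w : ℕ) : ℤ) := by
        have h4 : ((m ^ 2 + a ^ 2 : ℕ) : ℤ) = ((m * a + w : ℕ) : ℤ) := by rw [hw]
        push_cast at h4 ⊢
        have h5 : (w : ℤ) = m ^ 2 + a ^ 2 - m * a := by linarith
        rw [h5]
        ring
      exact_mod_cast h3
    rw [h2] at hp
    rcases (Nat.prime_mul_iff.1 hp) with h3 | h3
    · -- `w = 1`
      have h4 : w = 1 := h3.2
      have h5 : m ^ 2 + a ^ 2 = m * a + 1 := by rw [hw, h4]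
      have h6 : ((m : ℤ)) ^ 2 + (a : ℤ) ^ 2 = m * a + 1 := by exact_mod_cast h5
      have h7 : (2 : ℤ) ≤ a := by exact_mod_cast ha2
      nlinarith [sq_nonneg (2 * (m : ℤ) - a)]
    · have h4 : m + a = 1 := h3.2
      omega
  have h0 : ∑ i, c i * Q 3 k (B i) = 0 := by
    apply Finset.sum_eq_zero
    intro i _
    unfold Q
    rw [hP]
    simp
  rw [h0] at hk
  linarith [hk.2]

end Pool.Agent.Results.MP_4d57ea_nt.ContrastsBetweenScales
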