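import Pool.Agent.X32.Uni.CubK

/-!
# Exact sets of pairs `(h, κ)` for which `(p + h)³ + κ` is almost prime, at primes `p` with `p + b = P₂`

Let `b ≠ 0`, and let `S` be a finite list of pairs `(h, κ)`, `κ` not a cube, such that for every prime `p` some `x` has
`p ∤ x (x + b) ∏ ((x + h)³ + κ)` (this is necessary); let `H`, `L` be given. Then there are `C`, `t`, `κ₀ > 0` such that for
all large `X` and all `(A, B]`, `B ≤ X`, `B - A ≥ θ X`, there are at least `κ₀ (B - A) V` (the conjectured order of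
magnitude for prime values, `V = ∏_{p ≤ X} (1 - ω(p) / p)`) PRIMES `n` of `(A, B]` with the following properties:
* `n + b` is a product of at most two primes, both `> X ^ (1 / 9)` (Chen's theorem);
* `(n + h)³ + κ` is a product of at most `3 t` primes `> X ^ (1 / t)` for all `(h, κ) ∈ S`;
* `(n + h)³ + κ` has a prime factor `≤ C` for ALL other pairs with `|h| ≤ H`, `0 < |κ| ≤ L`.

And for every colouring of the integers these `n` are covered, up to `δ (B - A) V` of them, by disjoint monochromatic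
progressions of length `s` with differences `≤ (log X) ^ c`.

With `S = {(0, k)}`, `k` an even non-cube, and any `b` for which no prime is an obstruction: `n` is prime, `n + b = P₂` and
`n³ + k` is almost prime, while `n³ + κ` is almost prime for no other `0 < |κ| ≤ L`, nor `(n + h)³ + κ` for `0 < |h| ≤ H`.
-/

set_option autoImplicit false

namespace Pool.Agent.Results.MP_4d57ea_nt.ExactShifts

open Finset

variable {k : ℕ}

/-- the value `(x + h) ^ 3 + κ` for the pair `z = (h, κ)` -/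
def F (z : ℤ × ℤ) (x : ℤ) : ℤ := (x + z.1) ^ 3 + z.2

/-- `|v| > 1`, and `|v|` is a product of at most `r` primes, all of them larger than `y` -/
def Almost (r : ℕ) (y : ℝ) (v : ℤ) : Prop :=
  1 < |v| ∧ v.natAbs.primeFactorsList.length ≤ r ∧ ∀ q : ℕ, q.Prime → (q : ℤ) ∣ v → y < q

/-- `ω(p)`: the number of the zeros of `x (x + b) ∏ F` modulo `p` -/
noncomputable def omega (b : ℤ) (S : Fin k → ℤ × ℤ) (p : ℕ) : ℕ :=
  ((range p).filter (fun x : ℕ => (p : ℤ) ∣ (x : ℤ) * (x + b) * ∏ l, F (S l) x)).card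

/-- the product of `1 - ω(p) / p` over the primes `p ≤ X` -/
noncomputable def V (b : ℤ) (S : Fin k → ℤ × ℤ) (X : ℕ) : ℝ :=
  ∏ p ∈ (Icc 1 X).filter Nat.Prime, (1 - (omega b S p : ℝ) / p)

open Classical in
/-- the primes `n` of `(A, B]` described above -/
noncomputable def Good (b : ℤ) (S : Fin k → ℤ × ℤ) (H L C t X A B : ℕ) : Finset ℕ :=
  (Ioc A B).filter (fun n : ℕ => n.Prime ∧ (X : ℝ) ^ (1 / (t : ℝ)) < n ∧
    Almost 2 ((X : ℝ) ^ (1 / 9 : ℝ)) (n + b) ∧ Almost t ((X : ℝ) ^ (1 / (t : ℝ))) (n + b) ∧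
    (∀ l, Almost (3 * t) ((X : ℝ) ^ (1 / (t : ℝ))) (F (S l) n)) ∧
    ∀ z : ℤ × ℤ, (|z.1| ≤ H ∧ |z.2| ≤ L ∧ z.2 ≠ 0) ∧ (∀ l, S l ≠ z) → ∃ q : ℕ, q.Prime ∧ q ≤ C ∧ (q : ℤ) ∣ F z n)

/-- the terms `a, a + b, ..., a + (s - 1) b` of the progression `z = (a, b)` -/
def terms (s : ℕ) (z : ℕ × ℕ) : Finset ℕ := (range s).image (fun i => z.1 + i * z.2)

theorem result (b : ℤ) (hb : b ≠ 0) (S : Fin k → ℤ × ℤ) (hnc : ∀ l, ∀ a : ℤ, (S l).2 ≠ a ^ 3)
    (hS : ∀ p : ℕ, p.Prime → ∃ x : ℤ, ¬ (p : ℤ) ∣ x * (x + b) ∧ ∀ l, ¬ (p : ℤ) ∣ F (S l) x) (H L : ℕ) :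
    ∃ C t : ℕ, 1 ≤ t ∧ ∃ κ : ℝ, 0 < κ ∧ ∀ (s r : ℕ) (θ δ : ℝ), 1 ≤ s → 0 < θ → 0 < δ → ∃ c X₀ : ℕ, ∀ X : ℕ, X₀ ≤ X →
      κ / Real.log X ^ (3 * k + 2) ≤ V b S X ∧ ∀ A B : ℕ, B ≤ X → θ * X ≤ (B : ℝ) - A →
        κ * ((B : ℝ) - A) * V b S X ≤ ((Good b S H L C t X A B).card : ℝ) ∧
        ∀ χ : ℕ → Fin r, ∃ P : Finset (ℕ × ℕ),
          (∀ z ∈ P, 1 ≤ z.2 ∧ (z.2 : ℝ) ≤ Real.log X ^ c ∧
            ∀ l < s, z.1 + l * z.2 ∈ Good b S H L C t X A B ∧ χ (z.1 + l * z.2) = χ z.1) ∧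
          (P : Set (ℕ × ℕ)).PairwiseDisjoint (terms s) ∧
          (((Good b S H L C t X A B \ P.biUnion (terms s)).card : ℕ) : ℝ) ≤ δ * ((B : ℝ) - A) * V b S X :=
  Pool.Agent.X32.Uni.cubK b hb S hnc hS H L

end Pool.Agent.Results.MP_4d57ea_nt.ExactShifts
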