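import Pool.Agent.X34.M.M7

set_option autoImplicit false

/-!
# Primes `p` such that `m ^ 3 + p` and `m ^ 3 - p` are composite for all `m ≠ 0` up to the record size

Q1 asks for primes `m ^ 3 + k` for every noncube `k`. How large must `|m|` be, in terms of `k`? Here `k = ± p` is a prime
or its negative (or a small multiple of a prime): for at least `X ^ (9 / 10)` primes `p` in `(X, 3 X]` (in any class
modulo a squarefree number) the numbers `|m ^ 3 + p|`, `|m ^ 3 - p|` are composite for all integers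
`1 ≤ |m| ≤ c f(p)` and for all `m` with `|m|` a prime `≤ c f(p) log log p`, where
`f(p) = log p (log₂ p)² log₄ p / (log₃ p)²` (iterated natural logarithms) is the size of the largest known gaps between
primes. This is a case of a theorem for the numbers `a p + b m ^ e`, `e` odd, and arbitrary sets of integers `m`.

Proof: the record covering sieve with a prime in the middle (starting library, `Pool.Agent.TH101.RG.oneZ`, helper101)
for the family of the forms `a p + b z ^ e`.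
-/

namespace Pool.Agent.Results.MP_4d57ea_nt.PrimeConstantTerm

/-- The record scale `f(x) = log x (log₂ x)² log₄ x / (log₃ x)²` (iterated natural logarithms). -/
noncomputable def f (x : ℝ) : ℝ :=
  Real.log x * (Real.log (Real.log x)) ^ 2 * Real.log (Real.log (Real.log (Real.log x))) /
    (Real.log (Real.log (Real.log x))) ^ 2

open Filter in
/-- (1) For every squarefree `d` there is `c > 0` such that for all large `X` and all `h` prime to `d` at least
`X ^ (9 / 10)` primes `p` with `X < p ≤ 3 X`, `p ≡ h (mod d)` are such that neither `|m ^ 3 + p|` nor `|m ^ 3 - p|` is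
a prime for any integer `m` with `1 ≤ |m| ≤ c f(p)` and for any `m` with `|m|` a prime and `|m| ≤ c f(p) log log p`.

(2) For all `A`, `D`, `E`, `A₀` and every squarefree `d` there is `c > 0` such that for all large `X`, all nonzero
integers `a`, `b` with `|a|, |b| ≤ (log X)^D`, `|a| ≤ A₀ φ(|a|)`, `|b| ≤ A₀ φ(|b|)`, all odd `e ≤ E`, all `h` prime
to `d` and all finite sets `Z` of nonzero integers with `|z| ≤ log X (log log X)^A` and
`∑ |z| / φ(|z|) ≤ c f(X)`: at least `X ^ (9 / 10)` primes `p` with `X < p ≤ 3 X`, `p ≡ h (mod d)` are such that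
`|a p + b z ^ e|` is not a prime for all `z ∈ Z`. -/
theorem result :
    (∀ d : ℕ, Squarefree d → ∃ c : ℝ, 0 < c ∧ ∃ X₀ : ℝ, ∀ X : ℝ, X₀ ≤ X → ∀ h : ℕ, h.Coprime d →
      X ^ (9 / 10 : ℝ) ≤ ({p : ℕ | p.Prime ∧ X < p ∧ (p : ℝ) ≤ 3 * X ∧ p ≡ h [MOD d] ∧
        (∀ m : ℤ, m ≠ 0 → |(m : ℝ)| ≤ c * f p → ¬ Prime (m ^ 3 + p) ∧ ¬ Prime (m ^ 3 - p)) ∧
        (∀ m : ℤ, m.natAbs.Prime → |(m : ℝ)| ≤ c * (f p * Real.log (Real.log p)) →
          ¬ Prime (m ^ 3 + p) ∧ ¬ Prime (m ^ 3 - p))}.ncard : ℝ)) ∧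
    (∀ (A D E : ℕ) (A₀ : ℝ) (d : ℕ), Squarefree d → ∃ c : ℝ, 0 < c ∧ ∃ X₀ : ℝ, ∀ X : ℝ, X₀ ≤ X →
      ∀ a b : ℤ, a ≠ 0 → b ≠ 0 → |(a : ℝ)| ≤ (Real.log X) ^ D → |(b : ℝ)| ≤ (Real.log X) ^ D →
      |(a : ℝ)| ≤ A₀ * (a.natAbs.totient : ℝ) → |(b : ℝ)| ≤ A₀ * (b.natAbs.totient : ℝ) →
      ∀ e : ℕ, Odd e → e ≤ E → ∀ h : ℕ, h.Coprime d →
      ∀ Z : Finset ℤ, (∀ z ∈ Z, z ≠ 0 ∧ |(z : ℝ)| ≤ Real.log X * (Real.log (Real.log X)) ^ A) →
      ∑ z ∈ Z, (|(z : ℝ)| / (z.natAbs.totient : ℝ)) ≤ c * f X →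
      X ^ (9 / 10 : ℝ) ≤ ({p : ℕ | p.Prime ∧ X < p ∧ (p : ℝ) ≤ 3 * X ∧ p ≡ h [MOD d] ∧
        ∀ z ∈ Z, ¬ Prime (a * p + b * z ^ e)}.ncard : ℝ)) := by
  have habs : ∀ x : ℤ, ((x.natAbs : ℕ) : ℝ) = |(x : ℝ)| := fun x => by rw [Nat.cast_natAbs, Int.cast_abs]
  constructor
  · intro d hd
    obtain ⟨c₀, hc₀, hX₀⟩ := Pool.Agent.X34.M.mono_compZ 4 0 3 1 d hd
    obtain ⟨c₁, hc₁, hX₁⟩ := Pool.Agent.X34.M.stdsetZ c₀ hc₀
    refine ⟨c₁, hc₁, eventually_atTop.1 ?_⟩
    filter_upwards [hX₀, hX₁] with X hX0 hX1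
    intro h hh
    obtain ⟨Z, hZ1, hZ2, hZ3⟩ := hX1
    refine (hX0 1 1 one_ne_zero one_ne_zero (by simp) (by simp) (by simp) (by simp) 0 3 (by norm_num) le_rfl
      h hh Z hZ1 (by
        intro k _ l _ hkl
        rw [pow_zero, pow_zero, one_mul, one_mul] at hkl
        exact ((show Odd 3 by decide).strictMono_pow.injective hkl).symm) hZ2).trans ?_
    rw [Nat.cast_le]
    refine Set.ncard_le_ncard ?_ ?_
    · rintro p ⟨hp, hXp, hp3, hpd, hmain⟩
      obtain ⟨h1, h2⟩ := hZ3 p hXp hp3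
      have key : ∀ m : ℤ, m ∈ Z → ¬ Prime (m ^ 3 + p) := by
        intro m hm hprime
        apply hmain m hm
        have h3 : (1 : ℤ) * m ^ 0 * p + 1 * m ^ 3 = m ^ 3 + p := by ring
        rw [h3]
        exact Int.prime_iff_natAbs_prime.1 hprime
      have key2 : ∀ m : ℤ, m ∈ Z → -m ∈ Z → ¬ Prime (m ^ 3 + p) ∧ ¬ Prime (m ^ 3 - p) := by
        intro m hm hm'
        refine ⟨key m hm, fun hprime => key (-m) hm' ?_⟩
        have h3 : (-m) ^ 3 + (p : ℤ) = -(m ^ 3 - p) := by ring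
        rw [h3]
        exact hprime.neg
      refine ⟨hp, hXp, hp3, hpd, fun m hm0 hm1 => key2 m (h1 m hm0 hm1) (h1 (-m) (neg_ne_zero.2 hm0) ?_),
        fun m hmp hm1 => key2 m (h2 m hmp hm1) (h2 (-m) (by rwa [Int.natAbs_neg]) ?_)⟩
      · rw [Int.cast_neg, abs_neg]
        exact hm1
      · rw [Int.cast_neg, abs_neg]
        exact hm1
    · apply (Set.finite_Iic ⌊3 * X⌋₊).subset
      intro p hp
      exact Set.mem_Iic.2 (Nat.le_floor hp.2.2.1)
  · intro A D E A₀ d hd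
    obtain ⟨c, hc, hX⟩ := Pool.Agent.X34.M.mono_compZ A D E A₀ d hd
    refine ⟨c, hc, eventually_atTop.1 ?_⟩
    filter_upwards [hX] with X hX
    intro a b ha hb haD hbD haφ hbφ e he heE h hh Z hZ hZw
    refine (hX a b ha hb haD hbD (by rw [habs]; exact haφ) (by rw [habs]; exact hbφ) 0 e (Nat.zero_le _) heE
      h hh Z hZ (by
        intro k _ l _ hkl
        rw [pow_zero, pow_zero, one_mul, one_mul] at hkl
        exact (he.strictMono_pow.injective hkl).symm)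
      (by
        refine le_trans (le_of_eq (Finset.sum_congr rfl fun z _ => ?_)) hZw
        rw [habs])).trans ?_
    rw [Nat.cast_le]
    refine Set.ncard_le_ncard ?_ ?_
    · rintro p ⟨hp, hXp, hp3, hpd, hmain⟩
      refine ⟨hp, hXp, hp3, hpd, fun z hz hprime => hmain z hz ?_⟩
      have h4 : a * z ^ 0 * p + b * z ^ e = a * p + b * z ^ e := by ring
      rw [h4]
      exact Int.prime_iff_natAbs_prime.1 hprime
    · apply (Set.finite_Iic ⌊3 * X⌋₊).subset
      intro p hp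
      exact Set.mem_Iic.2 (Nat.le_floor hp.2.2.1)

end Pool.Agent.Results.MP_4d57ea_nt.PrimeConstantTerm
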