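import Pool.Agent.X37.TQ.Cnt

/-!
# Primes `m ^ 3 + k` with `k` in a short interval: around almost all of them the others have the right density

Let `F` and `f_1, …, f_r` be arbitrary integer polynomials of degree at most `e` and `0 < η ≤ 1`. For the question take
`r = 1`, `f_1 = m ^ 3`, `F = 1`, and `k` as the shift `a`. Let `m` run through ANY interval of length `X`, and the
vector `a` of shifts through ANY box with sides at least `X ^ η`. Let `S` be an ARBITRARY set of pairs `(m, a)` such
that `F(m), f_1(m) + a_1, …, f_r(m) + a_r` have no prime factor up to `X ^ η`, for example the set of those for which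
all these numbers are primes. Write `V_a` for the product of `1 - ω_a(p) / p` over the primes `p ≤ X ^ η`, `ω_a` the
number of zeros of `F ∏ (f_i + a_i)`; `H V_a` is the expected order of the number of `m` with `(m, a) ∈ S` in a window
of length `H`, up to a constant. There is a constant `C = C(r, e, η)` such that for all large `X`:

(1) For all `δ > 0` all but at most `C δ` times the expected number `X V_F ∏ A_i / (log X) ^ r` of all elements
`(m, a)` of `S` are such that ALL windows of ANY length `H` around `m` contain at least `δ H V_a` numbers `n` with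
`(n, a) ∈ S`, for the same `a`.

(2) All windows of length `H` between `X ^ η` and `X` contain at most `C H V_a` such numbers, for all `a`.

So almost every prime `m ^ 3 + k`, `k` in an interval of length `X ^ η`, belongs to a `k` with the right number, up to
constants, of primes `n ^ 3 + k` in all windows around `m`. The constants do not depend on the polynomials.

Method: `Pool.Agent.X37.TQ.avg`, the average of the products `V_a` over short boxes of shifts: they are bounded by the
numbers of the arguments with rough values (lower bound sieve), which are averaged over `a` first; and a covering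
argument for the windows.
-/

set_option autoImplicit false

namespace Pool.Agent.Results.MP_4d57ea_nt.RegularSolutionsShortShifts

open Finset

/-- `v` has no prime factor up to `z` -/
def Rough (z : ℝ) (v : ℤ) : Prop := ∀ p : ℕ, p.Prime → (p : ℝ) ≤ z → ¬ (p : ℤ) ∣ v

/-- the number of the zeros of `F` modulo `p` -/
def omega (F : Polynomial ℤ) (p : ℕ) : ℕ := ((range p).filter (fun n : ℕ => (p : ℤ) ∣ F.eval (n : ℤ))).card

/-- the product of `1 - omega F p / p` over the primes `p ≤ z` -/
noncomputable def V (F : Polynomial ℤ) (z : ℝ) : ℝ := ∏ p ∈ (Icc 1 ⌊z⌋₊).filter Nat.Prime, (1 - (omega F p : ℝ) / p)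

/-- the number of the `n` in the window `[u, v]` with `(n, a) ∈ S` -/
noncomputable def count {r : ℕ} (S : Finset (ℕ × (Fin r → ℤ))) (a : Fin r → ℤ) (u v : ℕ) : ℕ := by
  classical
  exact ((Icc u v).filter (fun n => (n, a) ∈ S)).card

theorem V_eq (F : Polynomial ℤ) (z : ℝ) :
    Pool.Agent.Y843.HS.VV (Pool.Agent.X26.GP.Zf F) 0 ⌊z⌋₊ = V F z := by
  unfold Pool.Agent.Y843.HS.VV Pool.Agent.Y843.HS.Pr V
  have h3 : Ioc 0 ⌊z⌋₊ = Icc 1 ⌊z⌋₊ := by
    ext v
    rw [mem_Ioc, mem_Icc]
    omega
  rw [h3]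
  rfl

open Classical in
theorem result (r e : ℕ) (η : ℝ) (hη : 0 < η) (hη1 : η ≤ 1) : ∃ C : ℝ, 0 < C ∧ ∃ X₀ : ℕ, ∀ X : ℕ, X₀ ≤ X →
    ∀ (F : Polynomial ℤ) (f : Fin r → Polynomial ℤ), F.natDegree ≤ e → (∀ i, (f i).natDegree ≤ e) →
    ∀ (U : ℕ) (b : Fin r → ℤ) (A : Fin r → ℕ), (∀ i, (X : ℝ) ^ η ≤ A i) →
    ∀ S : Finset (ℕ × (Fin r → ℤ)), (∀ x ∈ S, U < x.1 ∧ x.1 ≤ U + X ∧
      Rough ((X : ℝ) ^ η) (F.eval (x.1 : ℤ)) ∧ (∀ i, b i < x.2 i ∧ x.2 i ≤ b i + A i) ∧
      ∀ i, Rough ((X : ℝ) ^ η) ((f i).eval (x.1 : ℤ) + x.2 i)) →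
    (∀ δ : ℝ, 0 < δ → ((S.filter (fun x => ¬ ∀ u v : ℕ, U < u → u ≤ x.1 → x.1 ≤ v → v ≤ U + X →
        δ * (((v : ℝ) - u + 1) * V (F * ∏ i, (f i + Polynomial.C (x.2 i))) ((X : ℝ) ^ η)) ≤
          (count S x.2 u v : ℝ))).card : ℝ) ≤
      C * δ * (X * V F ((X : ℝ) ^ η) * ((∏ i, (A i : ℝ)) / Real.log X ^ r))) ∧
    ∀ (a : Fin r → ℤ) (u v : ℕ), u ≤ v → (X : ℝ) ^ η ≤ (v : ℝ) - u + 1 → (v : ℝ) - u + 1 ≤ X →
      (count S a u v : ℝ) ≤
        C * (((v : ℝ) - u + 1) * V (F * ∏ i, (f i + Polynomial.C (a i))) ((X : ℝ) ^ η)) := by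
  obtain ⟨C, hC, X₀, h⟩ := Pool.Agent.X37.TQ.counts r e η hη hη1
  refine ⟨C, hC, X₀, fun X hX F f hF hf U b A hA S hS => ?_⟩
  obtain ⟨h1, h2⟩ := h X hX F f hF hf U b A hA S hS
  constructor
  · intro δ hδ
    have h3 := h1 δ hδ
    rw [V_eq] at h3
    refine le_trans ?_ h3
    rw [Nat.cast_le]
    apply card_le_card
    intro x hx
    rw [mem_filter] at hx ⊢
    refine ⟨hx.1, ?_⟩
    have h4 := hx.2
    push Not at h4
    obtain ⟨u, v, h5, h6, h7, h8, h9⟩ := h4
    refine ⟨u, v, h5, h6, h7, h8, ?_⟩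
    rw [V_eq]
    have e1 : count S x.2 u v = ((Icc u v).filter (fun m => (m, x.2) ∈ S)).card := by
      unfold count
      congr!
    rw [e1] at h9
    exact h9
  · intro a u v huv h3 h4
    have h5 := h2 a u v huv h3 h4
    rw [V_eq] at h5
    have e1 : count S a u v = ((Icc u v).filter (fun m => (m, a) ∈ S)).card := by
      unfold count
      congr!
    rw [e1]
    exact h5

end Pool.Agent.Results.MP_4d57ea_nt.RegularSolutionsShortShifts
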